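import Pool.Agent.V5helper35.CA.Stm1

/-!
# Job KUM2 of project CA (helper35)

A unit of a number field which is an `l ^ (e + v)`-th power modulo all maximal ideals is the product of a
root of unity and an `l ^ e`-th power, if the field contains no primitive `l ^ (v + 1)`-th root of unity.
-/

set_option autoImplicit false

namespace Pool.Agent.V5helper55.CA

open NumberField Pool.Agent.V5helper35.CA

/-- the group theoretical end of the proof -/
lemma group_part {U : Type*} [CommGroup U] (l e v c : ℕ) (hl : l.Prime) (hc : ¬ l ^ (v + 1) ∣ c)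
    (y g : U) (h : y ^ c = g ^ (l ^ (e + v))) :
    ∃ t u : U, IsOfFinOrder t ∧ y = t * u ^ (l ^ e) := by
  have hc0 : c ≠ 0 := by
    rintro rfl
    exact hc (dvd_zero _)
  obtain ⟨w, b, hb, hcb⟩ := Nat.exists_eq_pow_mul_and_not_dvd hc0 l hl.ne_one
  have hw : w ≤ v := by
    by_contra h1
    push Not at h1
    exact hc (hcb ▸ Dvd.dvd.mul_right (pow_dvd_pow l h1) b)
  have hco : Nat.Coprime b (l ^ e) := Nat.Coprime.pow_right e ((hl.coprime_iff_not_dvd.2 hb).symm)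
  have hco' : IsCoprime (b : ℤ) ((l ^ e : ℕ) : ℤ) := Nat.isCoprime_iff_coprime.2 hco
  obtain ⟨s, r, hsr⟩ := hco'
  set t₁ : U := y ^ b / g ^ (l ^ (e + v - w)) with ht
  have h1 : t₁ ^ (l ^ w) = 1 := by
    rw [ht, div_pow, ← pow_mul, ← pow_mul, ← pow_add, mul_comm b, ← hcb, h,
      show e + v - w + w = e + v by omega, div_self']
  have h2 : IsOfFinOrder t₁ := isOfFinOrder_iff_pow_eq_one.2 ⟨l ^ w, pow_pos hl.pos w, h1⟩
  have h3 : y ^ b = t₁ * (g ^ (l ^ (v - w))) ^ (l ^ e) := by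
    rw [← pow_mul, ← pow_add, show v - w + e = e + v - w by omega, ht, div_mul_cancel]
  refine ⟨t₁ ^ s, (g ^ (l ^ (v - w))) ^ s * y ^ r, h2.zpow, ?_⟩
  have h4 : y = (y ^ b) ^ s * (y ^ r) ^ (l ^ e) := by
    rw [← zpow_natCast y b, ← zpow_mul, ← zpow_natCast (y ^ r) (l ^ e), ← zpow_mul, ← zpow_add,
      mul_comm (b : ℤ) s, hsr, zpow_one]
  rw [mul_pow, ← mul_assoc]
  nth_rw 1 [h4]
  rw [h3, mul_zpow]
  congr 2
  rw [← zpow_natCast, ← zpow_natCast (_ ^ s), zpow_comm]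

lemma exists_field (K : Type) [Field K] [NumberField K] (q : ℕ) (hq : 0 < q) (y : K) :
    ∃ (M : Type) (_ : Field M) (_ : NumberField M) (_ : Algebra K M), IsGalois ℚ M ∧
      ∃ z ζ : M, IsPrimitiveRoot ζ q ∧ z ^ q = algebraMap K M y := by
  have : NeZero q := ⟨hq.ne'⟩
  let Ω := AlgebraicClosure K
  have : NeZero (q : Ω) := ⟨Nat.cast_ne_zero.2 hq.ne'⟩
  obtain ⟨ζ', hζ'⟩ := HasEnoughRootsOfUnity.exists_primitiveRoot Ω q
  obtain ⟨z', hz'⟩ := IsAlgClosed.exists_pow_nat_eq (algebraMap K Ω y) hq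
  have tow : IsScalarTower ℚ K Ω := inferInstance
  have alg : Algebra.IsAlgebraic ℚ Ω := Algebra.IsAlgebraic.trans ℚ K Ω
  let K₁ : IntermediateField K Ω := IntermediateField.adjoin K {ζ', z'}
  have fd : FiniteDimensional K K₁ := by
    apply IntermediateField.finiteDimensional_adjoin
    intro x _
    exact (Algebra.IsAlgebraic.isAlgebraic (R := K) x).isIntegral
  have fdQ : FiniteDimensional ℚ K₁ := Module.Finite.trans K K₁
  have tow2 : IsScalarTower ℚ K₁ Ω := inferInstance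
  let M := IntermediateField.normalClosure ℚ K₁ Ω
  have nf : NumberField M := { to_charZero := inferInstance, to_finiteDimensional := inferInstance }
  have alq : Algebra.IsAlgebraic ℚ M := inferInstance
  have nor : Normal ℚ Ω := normal_iff.2 fun x =>
    ⟨(Algebra.IsAlgebraic.isAlgebraic (R := ℚ) x).isIntegral, IsAlgClosed.splits _⟩
  have norM : Normal ℚ M := normalClosure.normal ℚ K₁ Ω
  have gal : IsGalois ℚ M := { to_isSeparable := inferInstance, to_normal := norM }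
  have hm1 : ζ' ∈ K₁ := IntermediateField.subset_adjoin K _ (by simp)
  have hm2 : z' ∈ K₁ := IntermediateField.subset_adjoin K _ (by simp)
  have inj : Function.Injective (algebraMap M Ω) := (algebraMap M Ω).injective
  have inj₁ : Function.Injective (algebraMap K₁ Ω) := (algebraMap K₁ Ω).injective
  have e1 : (⟨z', hm2⟩ : K₁) ^ q = algebraMap K K₁ y := inj₁ (by rw [map_pow]; exact hz')
  have e2 : IsPrimitiveRoot (⟨ζ', hm1⟩ : K₁) q := by
    refine IsPrimitiveRoot.of_map_of_injective (f := algebraMap K₁ Ω) ?_ inj₁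
    exact hζ'
  refine ⟨M, inferInstance, nf, ((algebraMap K₁ M).comp (algebraMap K K₁)).toAlgebra, gal,
    algebraMap K₁ M ⟨z', hm2⟩, algebraMap K₁ M ⟨ζ', hm1⟩, ?_, ?_⟩
  · exact e2.map_of_injective (algebraMap K₁ M).injective
  · rw [← map_pow, e1]
    rfl

theorem t_KUM2 : S_KUM2 := by
  intro hK K _ _ l e v hl hno y hy
  rcases Nat.eq_zero_or_pos e with rfl | he
  · exact ⟨1, y, IsOfFinOrder.one, by simp⟩
  set q := l ^ (e + v) with hq
  have hq0 : 0 < q := pow_pos hl.pos _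
  obtain ⟨M, _, _, _, gal, z, ζ, hζ, hz⟩ := exists_field K q hq0 ((y : 𝓞 K) : K)
  have tow : IsScalarTower ℚ K M := inferInstance
  have galK : IsGalois K M := IsGalois.tower_top_of_isGalois ℚ K M
  have hy0 : algebraMap K M ((y : 𝓞 K) : K) ≠ 0 := by
    rw [Ne, map_eq_zero, NumberField.RingOfIntegers.coe_eq_zero_iff]
    exact y.ne_zero
  have hz0 : z ≠ 0 := by
    rintro rfl
    rw [zero_pow hq0.ne'] at hz
    exact hy0 hz.symm
  have key : ∀ σ : M ≃ₐ[K] M, σ ζ = ζ → σ z = z := by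
    intro σ hσ
    exact hK K M q hq0 (y : 𝓞 K) z ζ y.isUnit hζ hz hy (σ.restrictScalars ℚ)
      (fun a => σ.commutes a) hσ
  -- the characters
  have hNe : NeZero q := ⟨hq0.ne'⟩
  have act : ∀ σ : M ≃ₐ[K] M, ∃ a : ℕ, 1 ≤ a ∧ ∀ ξ : M, ξ ^ q = 1 → σ ξ = ξ ^ a := by
    intro σ
    obtain ⟨a, -, ha⟩ := hζ.eq_pow_of_pow_eq_one (ξ := σ ζ) (by rw [← map_pow, hζ.pow_eq_one, map_one])
    refine ⟨a + q, by omega, fun ξ hξ => ?_⟩
    obtain ⟨b, -, hb⟩ := hζ.eq_pow_of_pow_eq_one hξ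
    rw [pow_add, hξ, mul_one, ← hb, map_pow, ← ha, ← pow_mul, ← pow_mul, mul_comm]
  choose a ha1 ha using act
  have hζq : ζ ^ q = 1 := hζ.pow_eq_one
  let ξ : (M ≃ₐ[K] M) → M := fun σ => σ z / z
  have hξz : ∀ σ, σ z = ξ σ * z := fun σ => (div_mul_cancel₀ _ hz0).symm
  have hξq : ∀ σ, ξ σ ^ q = 1 := by
    intro σ
    rw [div_pow, ← map_pow, hz, AlgEquiv.commutes, div_self hy0]
  have hξ0 : ∀ σ, ξ σ ≠ 0 := by
    intro σ h
    have := hξq σ
    rw [h, zero_pow hq0.ne'] at this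
    exact zero_ne_one this
  have comm : ∀ σ τ : M ≃ₐ[K] M, σ (τ z) = τ (σ z) := by
    intro σ τ
    have h1 : σ (τ ζ) = τ (σ ζ) := by
      rw [ha τ ζ hζq, ha σ ζ hζq, map_pow, map_pow, ha τ ζ hζq, ha σ ζ hζq, ← pow_mul, ← pow_mul,
        mul_comm]
    have h2 : ((τ * σ)⁻¹ * (σ * τ)) ζ = ζ := by
      show (τ * σ)⁻¹ (σ (τ ζ)) = ζ
      rw [h1]
      show (τ * σ)⁻¹ ((τ * σ) ζ) = ζ
      exact AlgEquiv.symm_apply_apply (τ * σ) ζ
    have h3 := key _ h2
    have h4 : (τ * σ) (((τ * σ)⁻¹ * (σ * τ)) z) = (τ * σ) z := by rw [h3]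
    have h5 : (τ * σ) (((τ * σ)⁻¹ * (σ * τ)) z) = (σ * τ) z := by
      show (τ * σ) ((τ * σ)⁻¹ ((σ * τ) z)) = (σ * τ) z
      exact AlgEquiv.apply_symm_apply (τ * σ) _
    rw [h5] at h4
    exact h4
  have rel : ∀ σ τ : M ≃ₐ[K] M, ξ τ ^ a σ * ξ σ = ξ σ ^ a τ * ξ τ := by
    intro σ τ
    have h1 := comm σ τ
    rw [hξz τ, hξz σ, map_mul, map_mul, ha σ _ (hξq τ), ha τ _ (hξq σ), hξz τ, hξz σ, ← mul_assoc,
      ← mul_assoc] at h1
    exact mul_right_cancel₀ hz0 h1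
  -- an automorphism which moves a root of unity of order `l ^ (v + 1)`
  have hprim : IsPrimitiveRoot (ζ ^ (l ^ (e - 1))) (l ^ (v + 1)) := by
    refine hζ.pow hq0 ?_
    rw [hq, ← pow_add]
    congr 1
    omega
  obtain ⟨τ, hτ⟩ : ∃ τ : M ≃ₐ[K] M, τ (ζ ^ (l ^ (e - 1))) ≠ ζ ^ (l ^ (e - 1)) := by
    by_contra hcon
    push Not at hcon
    obtain ⟨x, hx⟩ := (IsGalois.mem_range_algebraMap_iff_fixed (F := K) (E := M) _).2 hcon
    apply hno x
    refine IsPrimitiveRoot.of_map_of_injective (f := algebraMap K M) ?_ (algebraMap K M).injective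
    rw [hx]
    exact hprim
  have hdiv : ¬ l ^ (v + 1) ∣ a τ - 1 := by
    rintro ⟨d, hd⟩
    apply hτ
    have h1 : a τ = l ^ (v + 1) * d + 1 := by have := ha1 τ; omega
    rw [map_pow, ha τ ζ hζq, ← pow_mul, h1, add_mul, one_mul, pow_add,
      show l ^ (v + 1) * d * l ^ (e - 1) = q * d by
        rw [hq, show e + v = v + 1 + (e - 1) by omega, pow_add]; ring,
      pow_mul, hζq, one_pow, one_mul]
  -- the element `g`
  obtain ⟨k, hk⟩ : z ^ (a τ - 1) / ξ τ ∈ Set.range (algebraMap K M) := by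
    rw [IsGalois.mem_range_algebraMap_iff_fixed]
    intro σ
    have h1 := rel σ τ
    have h2 : ξ σ ^ a τ = ξ σ ^ (a τ - 1) * ξ σ := by
      rw [← pow_succ, Nat.sub_add_cancel (ha1 τ)]
    rw [h2] at h1
    have h3 : ξ τ ^ a σ = ξ σ ^ (a τ - 1) * ξ τ := by
      apply mul_right_cancel₀ (hξ0 σ)
      rw [h1]
      ring
    rw [map_div₀, map_pow, hξz σ, ha σ _ (hξq τ), h3, mul_pow, mul_div_mul_left]
    exact pow_ne_zero _ (hξ0 σ)
  have hkq : k ^ q = ((y : 𝓞 K) : K) ^ (a τ - 1) := by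
    apply (algebraMap K M).injective
    rw [map_pow, hk, div_pow, hξq, div_one, map_pow, ← hz, ← pow_mul, ← pow_mul, mul_comm]
  have hkint : IsIntegral ℤ k := by
    apply IsIntegral.of_pow hq0
    rw [hkq]
    exact ((y : 𝓞 K).isIntegral_coe).pow _
  let k' : 𝓞 K := ⟨k, hkint⟩
  have hk' : k' ^ q = (y : 𝓞 K) ^ (a τ - 1) := by
    apply NumberField.RingOfIntegers.ext
    push_cast
    exact hkq
  have hku : IsUnit k' := by
    rw [← isUnit_pow_iff hq0.ne', hk']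
    exact y.isUnit.pow _
  obtain ⟨g, hg⟩ := hku
  refine group_part l e v (a τ - 1) hl hdiv y g ?_
  apply Units.ext
  push_cast
  rw [hg, ← hq, hk']

end Pool.Agent.V5helper55.CA
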